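import Mathlib
import Pool.Prelude.Def_F_b1b78ff3
import Pool.Agent.R359.Descend2
import Pool.Agent.TH444.ML.Done
import Pool.Agent.TH444.TW.Cls
import Pool.Agent.R367.IG.RealN

/-!
# Malle's conjecture for `C₂ ≀ H`: one base field for all groups `H` above a finite group `Γ`

For every finite group `Γ` there is a number field `K₀`, depending only on `Γ`, such that the form of
Malle's conjecture of the problem holds over all number fields `K ⊇ K₀` for all `C₂ ≀ H`, where `H` is
any group in the class `Above Γ` which has a subgroup of index `u` with trivial normal core and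
`8 u (u + 1) ≤ |H|`.

`Above Γ` is the smallest class of groups which contains `Γ` and is closed under

* quotients,
* split extensions with finite abelian kernel,
* the semidirect products `(A ≀ S_n) ^ k ⋊ W`, `A` any finite group, `W` acting through a homomorphism to
  `Aut(A) ≀ S_k`, `n ≥ ((3 |A| + 2)!) ^ 3`,
* all extensions, split or not, by direct products of groups `A i ≀ S_(m i)`, where the `A i` are
  finite and nontrivial with trivial centre, their inner automorphisms have a complement in `Aut(A i)`,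
  and `m i ≥ ((3 |A i| + 2)!) ^ 3`,
* the semidirect products `N ⋊ W`, `N` the group of the elements `(f, σ)` of `A ≀ S_n` with `∏ [f i] = 1`
  in the abelianization of the finite group `A`, `W` acting through an action on `A`,
  `n ≥ ((3 |A| + 2)!) ^ 3`.
-/

set_option autoImplicit false

open Filter
open Nfff32c05

namespace Pool.Agent.Results.MP_b39724_nt.UniformBaseField

/-- `G ≤ S_n` is, up to a bijection `f` of `{1, ..., n}` with `H × {0, 1}`, the wreath product
`C₂ ≀ H`: it consists of all permutations `π` for which there is `h ∈ H` such that `π` maps the block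
`{x} × {0, 1}` to the block `{h x} × {0, 1}`, for all `x ∈ H`. -/
def IsC2Wreath (H : Type) [Group H] {n : ℕ} (G : Subgroup (Equiv.Perm (Fin n))) : Prop :=
  ∃ f : Fin n ≃ H × Bool, ∀ π : Equiv.Perm (Fin n), π ∈ G ↔ ∃ h : H, ∀ i, (f (π i)).1 = h * (f i).1

/-- The index of a permutation: `n` minus the number of its orbits. -/
def ind {n : ℕ} (g : Equiv.Perm (Fin n)) : ℕ := g.cycleType.sum - Multiset.card g.cycleType

/-- `ind(G)`: the least index of an element `g ≠ 1` of `G`. -/
noncomputable def indG {n : ℕ} (G : Subgroup (Equiv.Perm (Fin n))) : ℕ :=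
  sInf {j : ℕ | ∃ g ∈ G, g ≠ 1 ∧ j = ind g}

/-- `g` and `h` are `K`-conjugate in `G`: `h` is conjugate in `G` to `g ^ a`, where `a` is the
exponent by which some automorphism over `K` acts on the `|G|`-th roots of unity. -/
def KConj (K : Type) [Field K] {n : ℕ} (G : Subgroup (Equiv.Perm (Fin n)))
    (g h : Equiv.Perm (Fin n)) : Prop :=
  ∃ (σ : AlgebraicClosure K ≃ₐ[K] AlgebraicClosure K) (a : ℕ),
    (∀ z : AlgebraicClosure K, z ^ Nat.card G = 1 → σ z = z ^ a) ∧ ∃ x ∈ G, h = x * g ^ a * x⁻¹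

/-- `β_K(G)`: the number of `K`-conjugacy classes in `G` of index `ind(G)`. -/
noncomputable def beta (K : Type) [Field K] {n : ℕ} (G : Subgroup (Equiv.Perm (Fin n))) : ℕ :=
  Nat.card (Quot fun g h : {g : Equiv.Perm (Fin n) // g ∈ G ∧ g ≠ 1 ∧ ind g = indG G} =>
    KConj K G g.1 h.1)

/-- The fields `L` between `K` and its algebraic closure, of degree `n` over `K`, whose Galois group,
acting on the embeddings, is `G` (up to numbering), and whose relative discriminant has norm at most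
`B` (that is, `|d_L| ≤ B |d_K| ^ n`). -/
def Ext (K : Type) [Field K] [NumberField K] (n : ℕ) (G : Subgroup (Equiv.Perm (Fin n)))
    (B : ℝ) : Set (IntermediateField K (AlgebraicClosure K)) :=
  {L | Module.finrank K L = n ∧
    (∃ e : (L →ₐ[K] AlgebraicClosure K) ≃ Fin n, ∀ π : Equiv.Perm (Fin n),
      π ∈ G ↔ ∃ σ : AlgebraicClosure K ≃ₐ[K] AlgebraicClosure K,
        ∀ φ : L →ₐ[K] AlgebraicClosure K, e (σ.toAlgHom.comp φ) = π (e φ)) ∧
    ∃ h : NumberField L,
      ((|@NumberField.discr L _ h| : ℤ) : ℝ) ≤ B * ((|NumberField.discr K| : ℤ) : ℝ) ^ n}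

/-- `n_K(G, B)` (here `N_`): the number of these fields up to `K`-isomorphism. -/
noncomputable def N_ (K : Type) [Field K] [NumberField K] (n : ℕ)
    (G : Subgroup (Equiv.Perm (Fin n))) (B : ℝ) : ℕ :=
  Nat.card (Quot fun L L' : Ext K n G B => Nonempty (L.1 ≃ₐ[K] L'.1))

/-- The group `C₂ ≀ H` exists, and is transitive. -/
theorem exists_group (H : Type) [Group H] [Finite H] : ∃ (d : ℕ)
    (G : Subgroup (Equiv.Perm (Fin d))), d = 2 * Nat.card H ∧ IsC2Wreath H G ∧
      ∀ i j : Fin d, ∃ g ∈ G, g i = j := by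
  have hcard : Nat.card (H × Bool) = 2 * Nat.card H := by
    rw [Nat.card_prod, mul_comm]
    simp
  let f : Fin (2 * Nat.card H) ≃ H × Bool := (Finite.equivFinOfCardEq hcard).symm
  let G : Subgroup (Equiv.Perm (Fin (2 * Nat.card H))) :=
    { carrier := {π | ∃ h : H, ∀ i, (f (π i)).1 = h * (f i).1}
      one_mem' := ⟨1, fun i => by simp⟩
      mul_mem' := by
        rintro π ρ ⟨h, hh⟩ ⟨h', hh'⟩
        refine ⟨h * h', fun i => ?_⟩
        rw [Equiv.Perm.mul_apply, hh, hh', mul_assoc]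
      inv_mem' := by
        rintro π ⟨h, hh⟩
        refine ⟨h⁻¹, fun i => ?_⟩
        have h1 := hh (π⁻¹ i)
        rw [show π (π⁻¹ i) = i from π.apply_symm_apply i] at h1
        rw [h1, inv_mul_cancel_left] }
  refine ⟨2 * Nat.card H, G, rfl, ⟨f, fun π => Iff.rfl⟩, fun i j => ?_⟩
  let t : Equiv.Perm (H × Bool) :=
    (Equiv.mulLeft ((f j).1 * (f i).1⁻¹)).prodCongr (Equiv.swap (f i).2 (f j).2)
  refine ⟨f.trans (t.trans f.symm), ⟨(f j).1 * (f i).1⁻¹, fun x => ?_⟩, ?_⟩
  · simp [t]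
  · change f.symm (t (f i)) = j
    rw [Equiv.symm_apply_eq]
    exact Prod.ext (by simp [t]) (by simp [t])

theorem indG_eq {H : Type} [Group H] [Finite H] {n : ℕ} {G : Subgroup (Equiv.Perm (Fin n))}
    (hG : IsC2Wreath H G) : indG G = 1 := by
  have h := Pool.Agent.TH444.ML.least_ind (H := H) hG
  exact h.csInf_eq

theorem beta_eq (K : Type) [Field K] {H : Type} [Group H] [Finite H] (h2 : 2 ≤ Nat.card H) {n : ℕ}
    {G : Subgroup (Equiv.Perm (Fin n))} (hG : IsC2Wreath H G) : beta K G = 1 := by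
  unfold beta
  rw [Nat.card_eq_one_iff_unique]
  have hi := indG_eq hG
  constructor
  · constructor
    intro a b
    induction a using Quot.ind with
    | mk g =>
      induction b using Quot.ind with
      | mk h =>
        apply Quot.sound
        obtain ⟨c, hc⟩ := isConj_iff.1 (Pool.Agent.TH444.ML.conj_of_ind_one h2 hG ⟨g.1, g.2.1⟩
          ⟨h.1, h.2.1⟩ (g.2.2.2.trans hi) (h.2.2.2.trans hi))
        refine ⟨1, 1, fun z _ => by rw [pow_one]; rfl, c.1, c.2, ?_⟩
        rw [pow_one]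
        exact (congrArg Subtype.val hc).symm
  · obtain ⟨g, h1, h3, h4⟩ := Pool.Agent.TH444.ML.exists_ind_one (H := H) hG
    exact ⟨Quot.mk _ ⟨g, h1, h3, h4.trans hi.symm⟩⟩

/-- A realization inside an algebraic closure. -/
theorem gal_of_real (K Ω H : Type) [Field K] [NumberField K] [Field Ω] [Algebra K Ω]
    [IsAlgClosure K Ω] [Group H] [Finite H]
    (h : ∃ (L : Type) (_ : Field L) (_ : Algebra K L), IsGalois K L ∧
      Nonempty (H ≃* (L ≃ₐ[K] L))) : (Pool.Agent.TH444.ML.Gal K Ω H).Nonempty := by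
  obtain ⟨F, _, _, hg, ⟨γ⟩⟩ := h
  have hfin : Finite (F ≃ₐ[K] F) := Finite.of_equiv H γ.toEquiv
  have hfd : FiniteDimensional K F := Pool.Agent.TH444.ML.fd_of_finite_aut K F
  have hac : IsAlgClosed Ω := IsAlgClosure.isAlgClosed K
  let j : F →ₐ[K] Ω := IsAlgClosed.lift
  let ε : F ≃ₐ[K] j.fieldRange := AlgEquiv.ofInjectiveField j
  refine ⟨j.fieldRange, ?_, ?_, ?_⟩
  · exact Module.Finite.equiv ε.toLinearEquiv
  · exact IsGalois.of_algEquiv ε
  · exact ⟨(AlgEquiv.autCongr ε).symm.trans γ.symm⟩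

/-- The form of Malle's conjecture of the problem over the number field `K`, for all subgroups `G` of
symmetric groups of the form `C₂ ≀ H`. -/
def MalleOver (K : Type) [Field K] [NumberField K] (H : Type) [Group H] : Prop :=
  ∀ (n : ℕ) (G : Subgroup (Equiv.Perm (Fin n))), IsC2Wreath H G →
    indG G = 1 ∧ beta K G = 1 ∧ ∃ C : ℝ, 0 < C ∧
      Tendsto (fun B : ℝ => (N_ K n G B : ℝ) /
        (B ^ (1 / (indG G : ℝ)) * Real.log B ^ (beta K G - 1))) atTop (nhds C)

/-- `H` has a subgroup of index `u` with trivial normal core and `8 u (u + 1) ≤ |H|`. -/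
def SmallIndex (H : Type) [Group H] : Prop :=
  ∃ U : Subgroup H, U.normalCore = ⊥ ∧ 8 * U.index * (U.index + 1) ≤ Nat.card H

/-- The conditions on the kernel: it is the direct product of the wreath products `A i ≀ S_(m i)`,
`A i` a nontrivial finite group with trivial centre whose inner automorphisms have a complement in
`Aut(A i)`, `m i ≥ ((3 |A i| + 2)!) ^ 3`. -/
def GoodKernel (N : Type) [Group N] {ι : Type} (A : ι → Type) [∀ i, Group (A i)]
    (m : ι → ℕ) : Prop :=
  (∀ i, Finite (A i) ∧ Nontrivial (A i) ∧ Subgroup.center (A i) = ⊥ ∧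
    (∃ T : Subgroup (MulAut (A i)), IsCompl T (MulAut.conj : A i →* MulAut (A i)).range) ∧
    ((3 * Nat.card (A i) + 2).factorial) ^ 3 ≤ m i) ∧
  Nonempty (N ≃* (∀ i, (Fin (m i) → A i) ⋊[mulAutArrow] Equiv.Perm (Fin (m i))))

/-- An automorphism `c` of `A` is applied to the `n` entries in `A` of an element of `A ≀ S_n`. -/
def twist {A : Type} [Group A] {n : ℕ} (c : MulAut A)
    (y : (Fin n → A) ⋊[mulAutArrow] Equiv.Perm (Fin n)) :
    (Fin n → A) ⋊[mulAutArrow] Equiv.Perm (Fin n) :=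
  ⟨fun j => c (y.left j), y.right⟩

/-- `p : W' → W` is the projection of a semidirect product `(A ≀ S_n) ^ k ⋊ W`, where `W` acts through
a homomorphism `ψ : W → Aut(A) ≀ S_k`: there are an isomorphism `ι` of `(A ≀ S_n) ^ k` onto the kernel
of `p` and a homomorphic section `s` of `p`, and `s w` acts on the kernel by
`x ↦ (c_i (x_(π⁻¹ i)))_i`, where `ψ w = (c, π)`. -/
def IsTwistedPower (A : Type) [Group A] (n : ℕ) {W W' : Type} [Group W] [Group W']
    (p : W' →* W) : Prop :=
  ∃ (k : ℕ) (ψ : W →* (Fin k → MulAut A) ⋊[mulAutArrow] Equiv.Perm (Fin k))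
    (ι : (Fin k → (Fin n → A) ⋊[mulAutArrow] Equiv.Perm (Fin n)) →* W') (s : W →* W'),
    Function.Injective ι ∧ ι.range = p.ker ∧ (∀ w, p (s w) = w) ∧
    ∀ w x, s w * ι x = ι (fun i => twist ((ψ w).left i) (x ((ψ w).right⁻¹ i))) * s w

/-- The coordinatewise action of `W` on `A ≀ S_n` which is given by an action `φ` of `W` on `A`. -/
abbrev coordAct {W A : Type} [Group W] [Group A] (φ : W →* MulAut A) (n : ℕ) :
    W →* MulAut ((Fin n → A) ⋊[mulAutArrow] Equiv.Perm (Fin n)) :=
  Pool.Agent.H391R2.T4.wrAct φ n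

/-- `N ⋊ W` as a subgroup of `(A ≀ S_n) ⋊ W`: the elements `((f, σ), ρ)` with `∏ [f i] = 1` in the
abelianization of `A`. -/
def NormOneBy {W A : Type} [Group W] [Group A] (φ : W →* MulAut A) (n : ℕ) :
    Subgroup (((Fin n → A) ⋊[mulAutArrow] Equiv.Perm (Fin n)) ⋊[coordAct φ n] W) where
  carrier := {x | ∏ i, Abelianization.of (x.left.left i) = 1}
  mul_mem' := (Pool.Agent.R367.IG.NO φ n).mul_mem'
  one_mem' := (Pool.Agent.R367.IG.NO φ n).one_mem'
  inv_mem' := (Pool.Agent.R367.IG.NO φ n).inv_mem'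

/-- The smallest class of groups which contains `Γ` and is closed under the operations listed. -/
inductive Above (Γ : Type) [Group Γ] : ∀ (W : Type) [Group W], Prop
  | base (W : Type) [Group W] (e : Γ ≃* W) : Above Γ W
  | quot (W W' : Type) [Group W] [Group W'] (q : W' →* W) (hq : Function.Surjective q)
      (h : Above Γ W') : Above Γ W
  | abelian (W W' : Type) [Group W] [Group W'] (p : W' →* W) (s : W →* W')
      (hs : ∀ w, p (s w) = w) (hf : Finite p.ker) (hc : ∀ x y, p x = 1 → p y = 1 → x * y = y * x)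
      (h : Above Γ W) : Above Γ W'
  | power (W W' : Type) [Group W] [Group W'] (p : W' →* W) (A : Type) [Group A] [Finite A] (n : ℕ)
      (hn : ((3 * Nat.card A + 2).factorial) ^ 3 ≤ n) (hp : IsTwistedPower A n p)
      (h : Above Γ W) : Above Γ W'
  | kernel (W W' : Type) [Group W] [Group W'] (p : W' →* W) (hp : Function.Surjective p)
      (ι : Type) [Finite ι] (A : ι → Type) [∀ i, Group (A i)] (m : ι → ℕ)
      (hN : GoodKernel p.ker A m) (h : Above Γ W) : Above Γ W'
  | normOne (W : Type) [Group W] (A : Type) [Group A] [Finite A] (φ : W →* MulAut A) (n : ℕ)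
      (hn : ((3 * Nat.card A + 2).factorial) ^ 3 ≤ n) (h : Above Γ W) : Above Γ (NormOneBy φ n)

/-- Specialisation over a number field. -/
theorem hil_out (K A : Type) [Field K] [NumberField K] [Group A] [Finite A]
    (h : Pool.Agent.H391R2.T4.RegSol K K A 1) :
    ∃ (L : Type) (_ : Field L) (_ : Algebra K L), IsGalois K L ∧
      Nonempty (A ≃* (L ≃ₐ[K] L)) := by
  obtain ⟨F, i1, i2, i3, i4, i5, i6, i7, i8, γ, hγ, -⟩ := h
  obtain ⟨F', j1, j2, j3, j4, j5, j6, γ', -⟩ := H33.hilbert_spec K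
    (Pool.Agent.H391R2.T4.hilb_numberField K) K A 1 ⟨F, i1, i2, i3, i4, i5, i6, i7, i8, γ, hγ⟩
  exact ⟨F', j1, j2, j6, ⟨γ'.symm⟩⟩

/-- Every finite group is the Galois group of a regular extension of `K₀(t)`, for some number field
`K₀`. -/
theorem exists_base (H : Type) [Group H] [Finite H] : ∃ (K₀ : Type) (_ : Field K₀)
    (_ : NumberField K₀), Pool.Agent.H391R2.T4.RegSol K₀ K₀ H 1 := by
  have halg : @Algebra.IsAlgebraic ℚ (AlgebraicClosure ℚ) _ _ DivisionRing.toRatAlgebra := by
    have e : (DivisionRing.toRatAlgebra : Algebra ℚ (AlgebraicClosure ℚ)) =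
        AlgebraicClosure.instAlgebra ℚ := Subsingleton.elim _ _
    rw [e]
    exact AlgebraicClosure.isAlgebraic ℚ
  obtain ⟨K₀, hfd, h⟩ := Pool.Agent.R359.descend
    (Pool.Agent.R359.reg_closed (AlgebraicClosure ℚ) H)
  exact ⟨K₀, inferInstance, ⟨⟩, h⟩

open Pool.Agent.H391R2.T4 in
/-- One embedding problem. -/
theorem step {K : Type} [Field K] [NumberField K] {W W' : Type} [Group W] [Finite W] [Group W']
    [Finite W'] (p : W' →* W) (h : Pool.Agent.TH444.TW.RSK K p) (hW : IsRealizable K W) :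
    IsRealizable K W' := by
  obtain ⟨L, i1, i2, i3, i4, ⟨f⟩⟩ := Pool.Agent.TH59.WX.exists_gal_of K W hW
  obtain ⟨F, j1, j2, j3, j4, j5, j6, γ, -⟩ := h.stepSol (hilb_numberField K) L f.symm
  exact Pool.Agent.H391R2.isRealizable_of F γ.symm

open Pool.Agent.H391R2.T4 in
theorem above_real {K : Type} [Field K] [NumberField K] {Γ : Type} [Group Γ] [Finite Γ]
    (hΓ : IsRealizable K Γ) {W : Type} [Group W] (h : Above Γ W) :
    Finite W ∧ IsRealizable K W := by
  induction h with
  | base W e =>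
    obtain ⟨⟨⟨L, i1, i2, i3, f⟩⟩⟩ := hΓ
    exact ⟨Finite.of_equiv _ e.toEquiv, ⟨⟨⟨L, i1, i2, i3, e.symm.trans f⟩⟩⟩⟩
  | quot W W' q hq _ ih =>
    obtain ⟨h1, h2⟩ := ih
    obtain ⟨L, i1, i2, i3, i4, ⟨f⟩⟩ := Pool.Agent.TH59.WX.exists_gal_of K W' h2
    exact ⟨Finite.of_surjective q hq, Pool.Agent.H391R2.isRealizable_quotient L
      (q.comp f.symm.toMonoidHom) (hq.comp f.symm.surjective)⟩
  | abelian W W' p s hs hf hc _ ih =>
    obtain ⟨h1, h2⟩ := ih
    have h3 : Finite W' := Pool.Agent.TH444.TW.finite_of_ker p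
    exact ⟨h3, step p (Pool.Agent.TH444.TW.ab_rs p s hs hc).rsk h2⟩
  | power W W' p A n hn hp _ ih =>
    obtain ⟨h1, h2⟩ := ih
    have hcls : Pool.Agent.TH444.TW.Cls K p := Pool.Agent.TH444.TW.Cls.wreath p A n hn hp
    have h3 : Finite W' := hcls.finite
    exact ⟨h3, step p hcls.rsk h2⟩
  | kernel W W' p hp ι A m hN _ ih =>
    obtain ⟨h1, h2⟩ := ih
    have hf : ∀ i, Finite (A i) := fun i => (hN.1 i).1
    have hnt : ∀ i, Nontrivial (A i) := fun i => (hN.1 i).2.1
    have hcls : Pool.Agent.TH444.TW.Cls K p := Pool.Agent.TH444.TW.Cls.kernel p hp ι A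
      (fun i => (hN.1 i).2.2.1) (fun i => (hN.1 i).2.2.2.1) m (fun i => (hN.1 i).2.2.2.2) hN.2
    have h3 : Finite W' := hcls.finite
    exact ⟨h3, step p hcls.rsk h2⟩
  | normOne W A φ n hn _ ih =>
    obtain ⟨h1, h2⟩ := ih
    have h3 : Finite (EG φ n) := finite_eg φ n
    have h4 : Finite (Pool.Agent.R367.IG.NO φ n) := inferInstance
    exact ⟨h4, Pool.Agent.R367.IG.real_no K (hilb_numberField K) W h2 A φ n hn⟩

theorem malleOver (K : Type) [Field K] [NumberField K] (H : Type) [Group H] [Finite H]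
    (hH : SmallIndex H) (h : IsRealizable K H) :
    MalleOver K H := by
  obtain ⟨U, hU, hc⟩ := hH
  have h1 : 1 ≤ U.index := Nat.one_le_iff_ne_zero.2 Subgroup.index_ne_zero_of_finite
  have h2 : 2 ≤ Nat.card H := by nlinarith
  intro n G hG
  refine ⟨indG_eq hG, beta_eq K h2 hG, ?_⟩
  obtain ⟨c, hc0, hlim⟩ := Pool.Agent.TH444.ML.asymp_iso Pool.Agent.TH444.ML.rest K H h2 U hU hc
    (gal_of_real K (AlgebraicClosure K) H (by
      obtain ⟨⟨⟨L, i1, i2, i3, f⟩⟩⟩ := h
      exact ⟨L, i1, i2, i3, ⟨f⟩⟩)) G hG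
  have hlim' : Tendsto (fun B : ℝ => (N_ K n G B : ℝ) / B) atTop (nhds c) := hlim
  refine ⟨c, hc0, ?_⟩
  rw [indG_eq hG, beta_eq K h2 hG]
  simpa using hlim'

end Pool.Agent.Results.MP_b39724_nt.UniformBaseField

open Pool.Agent.Results.MP_b39724_nt.UniformBaseField in
/-- For every finite group `Γ` there is a number field `K₀` such that over every number field
`K ⊇ K₀` the form of Malle's conjecture of the problem holds for all `G = C₂ ≀ H`, `H` in the class
`Above Γ` and with `SmallIndex H`. -/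
theorem Pool.Agent.Results.MP_b39724_nt.UniformBaseField.result :
    ∀ (Γ : Type) [Group Γ] [Finite Γ],
      ∃ (K₀ : Type) (_ : Field K₀) (_ : NumberField K₀), ∀ (K : Type) [Field K] [NumberField K]
        [Algebra K₀ K] (H : Type) [Group H], Above Γ H → SmallIndex H → MalleOver K H := by
  intro Γ _ _
  obtain ⟨K₀, i1, i2, hK₀⟩ := exists_base Γ
  refine ⟨K₀, i1, i2, ?_⟩
  intro K _ _ _ H _ hH hs
  obtain ⟨L, j1, j2, j3, ⟨f⟩⟩ := hil_out K Γ (Pool.Agent.TH444.TW.reg_base K₀ K Γ hK₀)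
  obtain ⟨h1, h2⟩ := above_real (K := K) (Γ := Γ) ⟨⟨⟨L, j1, j2, j3, f⟩⟩⟩ hH
  exact malleOver K H hs h2
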