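import Mathlib
import Pool.Agent.R359.Descend2
import Pool.Agent.TH444.ML.Done
import Pool.Agent.TH444.TW.RSK
import Pool.Agent.H391R2.T4.Abl

/-!
# Malle's conjecture over sufficiently large base fields for `C₂ ≀ H`

`H` is any finite group which has a subgroup of index `u`, with trivial normal core, such that
`8 u (u + 1) ≤ |H|`; it acts on itself by multiplication, and `G = C₂ ≀ H` acts on `H × {0, 1}`.
There is a number field `K₀` such that over every number field `K ⊇ K₀` the number of isomorphism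
classes of `G`-extensions of `K` with discriminant of norm at most `B` is asymptotic to
`C B ^ (1 / ind G) (log B) ^ (β_K(G) - 1)`.
-/

set_option autoImplicit false

open Filter

namespace Pool.Agent.Results.MP_b39724_nt.OrderTwoWreath

/-- `G ≤ S_n` is, up to a bijection `f` of `{1, ..., n}` with `H × {0, 1}`, the wreath product
`C₂ ≀ H`: it consists of all permutations `π` for which there is `h ∈ H` such that `π` maps the block
`{x} × {0, 1}` to the block `{h x} × {0, 1}`, for all `x ∈ H`. -/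
def IsC2Wreath (H : Type) [Group H] {n : ℕ} (G : Subgroup (Equiv.Perm (Fin n))) : Prop :=
  ∃ f : Fin n ≃ H × Bool, ∀ π : Equiv.Perm (Fin n), π ∈ G ↔ ∃ h : H, ∀ i, (f (π i)).1 = h * (f i).1

/-- The index of a permutation: `n` minus the number of its orbits. -/
def ind {n : ℕ} (g : Equiv.Perm (Fin n)) : ℕ := g.cycleType.sum - Multiset.card g.cycleType

/-- `ind(G)`: the least index of an element `g ≠ 1` of `G`. -/
noncomputable def indG {n : ℕ} (G : Subgroup (Equiv.Perm (Fin n))) : ℕ :=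
  sInf {j : ℕ | ∃ g ∈ G, g ≠ 1 ∧ j = ind g}

/-- `g` and `h` are `K`-conjugate in `G`: `h` is conjugate in `G` to `g ^ a`, where `a` is the
exponent by which some automorphism over `K` acts on the `|G|`-th roots of unity. -/
def KConj (K : Type) [Field K] {n : ℕ} (G : Subgroup (Equiv.Perm (Fin n)))
    (g h : Equiv.Perm (Fin n)) : Prop :=
  ∃ (σ : AlgebraicClosure K ≃ₐ[K] AlgebraicClosure K) (a : ℕ),
    (∀ z : AlgebraicClosure K, z ^ Nat.card G = 1 → σ z = z ^ a) ∧ ∃ x ∈ G, h = x * g ^ a * x⁻¹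

/-- `β_K(G)`: the number of `K`-conjugacy classes in `G` of index `ind(G)`. -/
noncomputable def beta (K : Type) [Field K] {n : ℕ} (G : Subgroup (Equiv.Perm (Fin n))) : ℕ :=
  Nat.card (Quot fun g h : {g : Equiv.Perm (Fin n) // g ∈ G ∧ g ≠ 1 ∧ ind g = indG G} =>
    KConj K G g.1 h.1)

/-- The fields `L` between `K` and its algebraic closure, of degree `n` over `K`, whose Galois group,
acting on the embeddings, is `G` (up to numbering), and whose relative discriminant has norm at most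
`B` (that is, `|d_L| ≤ B |d_K| ^ n`). -/
def Ext (K : Type) [Field K] [NumberField K] (n : ℕ) (G : Subgroup (Equiv.Perm (Fin n)))
    (B : ℝ) : Set (IntermediateField K (AlgebraicClosure K)) :=
  {L | Module.finrank K L = n ∧
    (∃ e : (L →ₐ[K] AlgebraicClosure K) ≃ Fin n, ∀ π : Equiv.Perm (Fin n),
      π ∈ G ↔ ∃ σ : AlgebraicClosure K ≃ₐ[K] AlgebraicClosure K,
        ∀ φ : L →ₐ[K] AlgebraicClosure K, e (σ.toAlgHom.comp φ) = π (e φ)) ∧
    ∃ h : NumberField L,
      ((|@NumberField.discr L _ h| : ℤ) : ℝ) ≤ B * ((|NumberField.discr K| : ℤ) : ℝ) ^ n}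

/-- `n_K(G, B)`: the number of these fields up to `K`-isomorphism. -/
noncomputable def N (K : Type) [Field K] [NumberField K] (n : ℕ)
    (G : Subgroup (Equiv.Perm (Fin n))) (B : ℝ) : ℕ :=
  Nat.card (Quot fun L L' : Ext K n G B => Nonempty (L.1 ≃ₐ[K] L'.1))

/-- The group `C₂ ≀ H` exists, and is transitive. -/
theorem exists_group (H : Type) [Group H] [Finite H] : ∃ (d : ℕ)
    (G : Subgroup (Equiv.Perm (Fin d))), d = 2 * Nat.card H ∧ IsC2Wreath H G ∧
      ∀ i j : Fin d, ∃ g ∈ G, g i = j := by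
  have hcard : Nat.card (H × Bool) = 2 * Nat.card H := by
    rw [Nat.card_prod, mul_comm]
    simp
  let f : Fin (2 * Nat.card H) ≃ H × Bool := (Finite.equivFinOfCardEq hcard).symm
  let G : Subgroup (Equiv.Perm (Fin (2 * Nat.card H))) :=
    { carrier := {π | ∃ h : H, ∀ i, (f (π i)).1 = h * (f i).1}
      one_mem' := ⟨1, fun i => by simp⟩
      mul_mem' := by
        rintro π ρ ⟨h, hh⟩ ⟨h', hh'⟩
        refine ⟨h * h', fun i => ?_⟩
        rw [Equiv.Perm.mul_apply, hh, hh', mul_assoc]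
      inv_mem' := by
        rintro π ⟨h, hh⟩
        refine ⟨h⁻¹, fun i => ?_⟩
        have h1 := hh (π⁻¹ i)
        rw [show π (π⁻¹ i) = i from π.apply_symm_apply i] at h1
        rw [h1, inv_mul_cancel_left] }
  refine ⟨2 * Nat.card H, G, rfl, ⟨f, fun π => Iff.rfl⟩, fun i j => ?_⟩
  let t : Equiv.Perm (H × Bool) :=
    (Equiv.mulLeft ((f j).1 * (f i).1⁻¹)).prodCongr (Equiv.swap (f i).2 (f j).2)
  refine ⟨f.trans (t.trans f.symm), ⟨(f j).1 * (f i).1⁻¹, fun x => ?_⟩, ?_⟩
  · simp [t]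
  · change f.symm (t (f i)) = j
    rw [Equiv.symm_apply_eq]
    exact Prod.ext (by simp [t]) (by simp [t])

theorem indG_eq {H : Type} [Group H] [Finite H] {n : ℕ} {G : Subgroup (Equiv.Perm (Fin n))}
    (hG : IsC2Wreath H G) : indG G = 1 := by
  have h := Pool.Agent.TH444.ML.least_ind (H := H) hG
  exact h.csInf_eq

theorem beta_eq (K : Type) [Field K] {H : Type} [Group H] [Finite H] (h2 : 2 ≤ Nat.card H) {n : ℕ}
    {G : Subgroup (Equiv.Perm (Fin n))} (hG : IsC2Wreath H G) : beta K G = 1 := by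
  unfold beta
  rw [Nat.card_eq_one_iff_unique]
  have hi := indG_eq hG
  constructor
  · constructor
    intro a b
    induction a using Quot.ind with
    | mk g =>
      induction b using Quot.ind with
      | mk h =>
        apply Quot.sound
        obtain ⟨c, hc⟩ := isConj_iff.1 (Pool.Agent.TH444.ML.conj_of_ind_one h2 hG ⟨g.1, g.2.1⟩
          ⟨h.1, h.2.1⟩ (g.2.2.2.trans hi) (h.2.2.2.trans hi))
        refine ⟨1, 1, fun z _ => by rw [pow_one]; rfl, c.1, c.2, ?_⟩
        rw [pow_one]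
        exact (congrArg Subtype.val hc).symm
  · obtain ⟨g, h1, h3, h4⟩ := Pool.Agent.TH444.ML.exists_ind_one (H := H) hG
    exact ⟨Quot.mk _ ⟨g, h1, h3, h4.trans hi.symm⟩⟩

/-- Specialisation over a number field. -/
theorem hil_out (K A : Type) [Field K] [NumberField K] [Group A] [Finite A]
    (h : Pool.Agent.H391R2.T4.RegSol K K A 1) :
    ∃ (L : Type) (_ : Field L) (_ : Algebra K L), IsGalois K L ∧
      Nonempty (A ≃* (L ≃ₐ[K] L)) := by
  obtain ⟨F, i1, i2, i3, i4, i5, i6, i7, i8, γ, hγ, -⟩ := h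
  obtain ⟨F', j1, j2, j3, j4, j5, j6, γ', -⟩ := H33.hilbert_spec K
    (Pool.Agent.H391R2.T4.hilb_numberField K) K A 1 ⟨F, i1, i2, i3, i4, i5, i6, i7, i8, γ, hγ⟩
  exact ⟨F', j1, j2, j6, ⟨γ'.symm⟩⟩

/-- A realization inside an algebraic closure. -/
theorem gal_of_real (K Ω H : Type) [Field K] [NumberField K] [Field Ω] [Algebra K Ω]
    [IsAlgClosure K Ω] [Group H] [Finite H]
    (h : ∃ (L : Type) (_ : Field L) (_ : Algebra K L), IsGalois K L ∧
      Nonempty (H ≃* (L ≃ₐ[K] L))) : (Pool.Agent.TH444.ML.Gal K Ω H).Nonempty := by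
  obtain ⟨F, _, _, hg, ⟨γ⟩⟩ := h
  have hfin : Finite (F ≃ₐ[K] F) := Finite.of_equiv H γ.toEquiv
  have hfd : FiniteDimensional K F := Pool.Agent.TH444.ML.fd_of_finite_aut K F
  have hac : IsAlgClosed Ω := IsAlgClosure.isAlgClosed K
  let j : F →ₐ[K] Ω := IsAlgClosed.lift
  let ε : F ≃ₐ[K] j.fieldRange := AlgEquiv.ofInjectiveField j
  refine ⟨j.fieldRange, ?_, ?_, ?_⟩
  · exact Module.Finite.equiv ε.toLinearEquiv
  · exact IsGalois.of_algEquiv ε
  · exact ⟨(AlgEquiv.autCongr ε).symm.trans γ.symm⟩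

/-- Every finite group is the Galois group of a regular extension of `K₀(t)`, for some number field
`K₀`. -/
theorem exists_base (H : Type) [Group H] [Finite H] : ∃ (K₀ : Type) (_ : Field K₀)
    (_ : NumberField K₀), Pool.Agent.H391R2.T4.RegSol K₀ K₀ H 1 := by
  have halg : @Algebra.IsAlgebraic ℚ (AlgebraicClosure ℚ) _ _ DivisionRing.toRatAlgebra := by
    have e : (DivisionRing.toRatAlgebra : Algebra ℚ (AlgebraicClosure ℚ)) =
        AlgebraicClosure.instAlgebra ℚ := Subsingleton.elim _ _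
    rw [e]
    exact AlgebraicClosure.isAlgebraic ℚ
  obtain ⟨K₀, hfd, h⟩ := Pool.Agent.R359.descend
    (Pool.Agent.R359.reg_closed (AlgebraicClosure ℚ) H)
  exact ⟨K₀, inferInstance, ⟨⟩, h⟩

end Pool.Agent.Results.MP_b39724_nt.OrderTwoWreath

open Pool.Agent.Results.MP_b39724_nt.OrderTwoWreath in
/-- For every finite group `H` which has a subgroup of index `u`, with trivial normal core, such that
`8 u (u + 1) ≤ |H|`, the transitive group `G = C₂ ≀ H` of degree `2 |H|` satisfies the form of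
Malle's conjecture over all number fields which contain a suitable number field `K₀`. -/
theorem Pool.Agent.Results.MP_b39724_nt.OrderTwoWreath.result :
    ∀ (H : Type) [Group H] [Finite H] (U : Subgroup H), U.normalCore = ⊥ →
      8 * U.index * (U.index + 1) ≤ Nat.card H →
      (∃ (n : ℕ) (G : Subgroup (Equiv.Perm (Fin n))), n = 2 * Nat.card H ∧ IsC2Wreath H G ∧
        ∀ i j : Fin n, ∃ g ∈ G, g i = j) ∧
      ∃ (K₀ : Type) (_ : Field K₀) (_ : NumberField K₀), ∀ (K : Type) [Field K] [NumberField K]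
        [Algebra K₀ K] (n : ℕ) (G : Subgroup (Equiv.Perm (Fin n))), IsC2Wreath H G →
        indG G = 1 ∧ beta K G = 1 ∧ ∃ C : ℝ, 0 < C ∧
          Tendsto (fun B : ℝ => (N K n G B : ℝ) /
            (B ^ (1 / (indG G : ℝ)) * Real.log B ^ (beta K G - 1))) atTop (nhds C) := by
  intro H _ _ U hU hc
  refine ⟨exists_group H, ?_⟩
  have h1 : 1 ≤ U.index := Nat.one_le_iff_ne_zero.2 Subgroup.index_ne_zero_of_finite
  have h2 : 2 ≤ Nat.card H := by nlinarith
  obtain ⟨K₀, i1, i2, hK₀⟩ := exists_base H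
  refine ⟨K₀, i1, i2, ?_⟩
  intro K _ _ _ n G hG
  refine ⟨indG_eq hG, beta_eq K h2 hG, ?_⟩
  have hne : (Pool.Agent.TH444.ML.Gal K (AlgebraicClosure K) H).Nonempty :=
    gal_of_real K (AlgebraicClosure K) H
      (hil_out K H (Pool.Agent.TH444.TW.reg_base K₀ K H hK₀))
  obtain ⟨c, hc0, hlim⟩ :=
    Pool.Agent.TH444.ML.asymp_iso Pool.Agent.TH444.ML.rest K H h2 U hU hc hne G hG
  have hlim' : Tendsto (fun B : ℝ => (N K n G B : ℝ) / B) atTop (nhds c) := hlim
  refine ⟨c, hc0, ?_⟩
  rw [indG_eq hG, beta_eq K h2 hG]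
  simpa using hlim'
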