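import Mathlib
import Pool.Agent.R630.ML.Spd
import Pool.Agent.TH444.ML.Done

/-!
# Malle's conjecture for `C₂ ≀ H` over all large number fields in one totally real field

Let `A` be an infinite set of positive integers, for example the set of all powers of a prime `p`.
There is an algebraic extension `F` of `ℚ` such that

* the degree of every finite subextension of `F / ℚ` divides a product of distinct elements of `A`
  (so it is a power of `p` in the example),
* `F` is totally real, and for every prime `q` the images of all embeddings of `F` into the algebraic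
  closure of `ℚ_q` lie in one finite extension of `ℚ_q`,
* for every finite group `H` with a subgroup of index `u` with trivial normal core, `8 u (u + 1) ≤ |H|`,
  there are number fields `K₀` in `F`, of degrees in `A` and as large as we please, such that the form
  of Malle's conjecture of the problem holds for `C₂ ≀ H` over every number field `K` with
  `K₀ ⊆ K ⊆ F`.

So for each prime `p` and all these `H` the base field `K₀` can be taken totally real of `p`-power
degree, and all the number fields `K ⊇ K₀` in the infinite extension `F` are totally real and of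
`p`-power degree.
-/

set_option autoImplicit false

open Filter

namespace Pool.Agent.Results.MP_b39724_nt.SparseFields

/-- `G ≤ S_n` is, up to a bijection `f` of `{1, ..., n}` with `H × {0, 1}`, the wreath product
`C₂ ≀ H`: it consists of all permutations `π` for which there is `h ∈ H` such that `π` maps the block
`{x} × {0, 1}` to the block `{h x} × {0, 1}`, for all `x ∈ H`. -/
def IsC2Wreath (H : Type) [Group H] {n : ℕ} (G : Subgroup (Equiv.Perm (Fin n))) : Prop :=
  ∃ f : Fin n ≃ H × Bool, ∀ π : Equiv.Perm (Fin n), π ∈ G ↔ ∃ h : H, ∀ i, (f (π i)).1 = h * (f i).1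

/-- The index of a permutation: `n` minus the number of its orbits. -/
def ind {n : ℕ} (g : Equiv.Perm (Fin n)) : ℕ := g.cycleType.sum - Multiset.card g.cycleType

/-- `ind(G)`: the least index of an element `g ≠ 1` of `G`. -/
noncomputable def indG {n : ℕ} (G : Subgroup (Equiv.Perm (Fin n))) : ℕ :=
  sInf {j : ℕ | ∃ g ∈ G, g ≠ 1 ∧ j = ind g}

/-- `g` and `h` are `K`-conjugate in `G`: `h` is conjugate in `G` to `g ^ a`, where `a` is the
exponent by which some automorphism over `K` acts on the `|G|`-th roots of unity. -/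
def KConj (K : Type) [Field K] {n : ℕ} (G : Subgroup (Equiv.Perm (Fin n)))
    (g h : Equiv.Perm (Fin n)) : Prop :=
  ∃ (σ : AlgebraicClosure K ≃ₐ[K] AlgebraicClosure K) (a : ℕ),
    (∀ z : AlgebraicClosure K, z ^ Nat.card G = 1 → σ z = z ^ a) ∧ ∃ x ∈ G, h = x * g ^ a * x⁻¹

/-- `β_K(G)`: the number of `K`-conjugacy classes in `G` of index `ind(G)`. -/
noncomputable def beta (K : Type) [Field K] {n : ℕ} (G : Subgroup (Equiv.Perm (Fin n))) : ℕ :=
  Nat.card (Quot fun g h : {g : Equiv.Perm (Fin n) // g ∈ G ∧ g ≠ 1 ∧ ind g = indG G} =>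
    KConj K G g.1 h.1)

/-- The fields `L` between `K` and its algebraic closure, of degree `n` over `K`, whose Galois group,
acting on the embeddings, is `G` (up to numbering), and whose relative discriminant has norm at most
`B` (that is, `|d_L| ≤ B |d_K| ^ n`). -/
def Ext (K : Type) [Field K] [NumberField K] (n : ℕ) (G : Subgroup (Equiv.Perm (Fin n)))
    (B : ℝ) : Set (IntermediateField K (AlgebraicClosure K)) :=
  {L | Module.finrank K L = n ∧
    (∃ e : (L →ₐ[K] AlgebraicClosure K) ≃ Fin n, ∀ π : Equiv.Perm (Fin n),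
      π ∈ G ↔ ∃ σ : AlgebraicClosure K ≃ₐ[K] AlgebraicClosure K,
        ∀ φ : L →ₐ[K] AlgebraicClosure K, e (σ.toAlgHom.comp φ) = π (e φ)) ∧
    ∃ h : NumberField L,
      ((|@NumberField.discr L _ h| : ℤ) : ℝ) ≤ B * ((|NumberField.discr K| : ℤ) : ℝ) ^ n}

/-- `n_K(G, B)` (here `N_`): the number of these fields up to `K`-isomorphism. -/
noncomputable def N_ (K : Type) [Field K] [NumberField K] (n : ℕ)
    (G : Subgroup (Equiv.Perm (Fin n))) (B : ℝ) : ℕ :=
  Nat.card (Quot fun L L' : Ext K n G B => Nonempty (L.1 ≃ₐ[K] L'.1))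

/-- The group `C₂ ≀ H` exists, and is transitive. -/
theorem exists_group (H : Type) [Group H] [Finite H] : ∃ (d : ℕ)
    (G : Subgroup (Equiv.Perm (Fin d))), d = 2 * Nat.card H ∧ IsC2Wreath H G ∧
      ∀ i j : Fin d, ∃ g ∈ G, g i = j := by
  have hcard : Nat.card (H × Bool) = 2 * Nat.card H := by
    rw [Nat.card_prod, mul_comm]
    simp
  let f : Fin (2 * Nat.card H) ≃ H × Bool := (Finite.equivFinOfCardEq hcard).symm
  let G : Subgroup (Equiv.Perm (Fin (2 * Nat.card H))) :=
    { carrier := {π | ∃ h : H, ∀ i, (f (π i)).1 = h * (f i).1}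
      one_mem' := ⟨1, fun i => by simp⟩
      mul_mem' := by
        rintro π ρ ⟨h, hh⟩ ⟨h', hh'⟩
        refine ⟨h * h', fun i => ?_⟩
        rw [Equiv.Perm.mul_apply, hh, hh', mul_assoc]
      inv_mem' := by
        rintro π ⟨h, hh⟩
        refine ⟨h⁻¹, fun i => ?_⟩
        have h1 := hh (π⁻¹ i)
        rw [show π (π⁻¹ i) = i from π.apply_symm_apply i] at h1
        rw [h1, inv_mul_cancel_left] }
  refine ⟨2 * Nat.card H, G, rfl, ⟨f, fun π => Iff.rfl⟩, fun i j => ?_⟩
  let t : Equiv.Perm (H × Bool) :=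
    (Equiv.mulLeft ((f j).1 * (f i).1⁻¹)).prodCongr (Equiv.swap (f i).2 (f j).2)
  refine ⟨f.trans (t.trans f.symm), ⟨(f j).1 * (f i).1⁻¹, fun x => ?_⟩, ?_⟩
  · simp [t]
  · change f.symm (t (f i)) = j
    rw [Equiv.symm_apply_eq]
    exact Prod.ext (by simp [t]) (by simp [t])

theorem indG_eq {H : Type} [Group H] [Finite H] {n : ℕ} {G : Subgroup (Equiv.Perm (Fin n))}
    (hG : IsC2Wreath H G) : indG G = 1 := by
  have h := Pool.Agent.TH444.ML.least_ind (H := H) hG
  exact h.csInf_eq

theorem beta_eq (K : Type) [Field K] {H : Type} [Group H] [Finite H] (h2 : 2 ≤ Nat.card H) {n : ℕ}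
    {G : Subgroup (Equiv.Perm (Fin n))} (hG : IsC2Wreath H G) : beta K G = 1 := by
  unfold beta
  rw [Nat.card_eq_one_iff_unique]
  have hi := indG_eq hG
  constructor
  · constructor
    intro a b
    induction a using Quot.ind with
    | mk g =>
      induction b using Quot.ind with
      | mk h =>
        apply Quot.sound
        obtain ⟨c, hc⟩ := isConj_iff.1 (Pool.Agent.TH444.ML.conj_of_ind_one h2 hG ⟨g.1, g.2.1⟩
          ⟨h.1, h.2.1⟩ (g.2.2.2.trans hi) (h.2.2.2.trans hi))
        refine ⟨1, 1, fun z _ => by rw [pow_one]; rfl, c.1, c.2, ?_⟩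
        rw [pow_one]
        exact (congrArg Subtype.val hc).symm
  · obtain ⟨g, h1, h3, h4⟩ := Pool.Agent.TH444.ML.exists_ind_one (H := H) hG
    exact ⟨Quot.mk _ ⟨g, h1, h3, h4.trans hi.symm⟩⟩

/-- A realization inside an algebraic closure. -/
theorem gal_of_real (K Ω H : Type) [Field K] [NumberField K] [Field Ω] [Algebra K Ω]
    [IsAlgClosure K Ω] [Group H] [Finite H]
    (h : ∃ (L : Type) (_ : Field L) (_ : Algebra K L), IsGalois K L ∧
      Nonempty (H ≃* (L ≃ₐ[K] L))) : (Pool.Agent.TH444.ML.Gal K Ω H).Nonempty := by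
  obtain ⟨F, _, _, hg, ⟨γ⟩⟩ := h
  have hfin : Finite (F ≃ₐ[K] F) := Finite.of_equiv H γ.toEquiv
  have hfd : FiniteDimensional K F := Pool.Agent.TH444.ML.fd_of_finite_aut K F
  have hac : IsAlgClosed Ω := IsAlgClosure.isAlgClosed K
  let j : F →ₐ[K] Ω := IsAlgClosed.lift
  let ε : F ≃ₐ[K] j.fieldRange := AlgEquiv.ofInjectiveField j
  refine ⟨j.fieldRange, ?_, ?_, ?_⟩
  · exact Module.Finite.equiv ε.toLinearEquiv
  · exact IsGalois.of_algEquiv ε
  · exact ⟨(AlgEquiv.autCongr ε).symm.trans γ.symm⟩

/-- The form of Malle's conjecture of the problem over the number field `K`, for all subgroups `G` of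
symmetric groups of the form `C₂ ≀ H`. -/
def MalleOver (K : Type) [Field K] [NumberField K] (H : Type) [Group H] : Prop :=
  ∀ (n : ℕ) (G : Subgroup (Equiv.Perm (Fin n))), IsC2Wreath H G →
    indG G = 1 ∧ beta K G = 1 ∧ ∃ C : ℝ, 0 < C ∧
      Tendsto (fun B : ℝ => (N_ K n G B : ℝ) /
        (B ^ (1 / (indG G : ℝ)) * Real.log B ^ (beta K G - 1))) atTop (nhds C)

/-- `H` has a subgroup of index `u` with trivial normal core and `8 u (u + 1) ≤ |H|`. -/
def SmallIndex (H : Type) [Group H] : Prop :=
  ∃ U : Subgroup H, U.normalCore = ⊥ ∧ 8 * U.index * (U.index + 1) ≤ Nat.card H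

/-- For the prime `q` the images of all embeddings of `F` into the algebraic closure of `ℚ_q` lie in
one finite extension of `ℚ_q`. -/
def FiniteLocalDegree (F : Type) [Field F] (q : ℕ) [Fact q.Prime] : Prop :=
  ∃ E : IntermediateField ℚ_[q] (AlgebraicClosure ℚ_[q]), FiniteDimensional ℚ_[q] E ∧
    ∀ (σ : F →+* AlgebraicClosure ℚ_[q]) (x : F), σ x ∈ E

/-- `F` is totally real and has finite local degrees at all primes. -/
def RealFiniteLocal (F : Type) [Field F] : Prop :=
  NumberField.IsTotallyReal F ∧ ∀ (q : ℕ) [Fact q.Prime], FiniteLocalDegree F q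

/-- The degree of every finite subextension of `F / ℚ` divides a product of distinct elements
of `A`. -/
def DegreesIn (A : Set ℕ) (F : Type) [Field F] [Algebra ℚ F] : Prop :=
  ∀ E : IntermediateField ℚ F, FiniteDimensional ℚ E →
    ∃ T : Finset ℕ, (T : Set ℕ) ⊆ A ∧ Module.finrank ℚ E ∣ ∏ a ∈ T, a

theorem malleOver (K : Type) [Field K] [NumberField K] (H : Type) [Group H] [Finite H]
    (hH : SmallIndex H) (h : ∃ (L : Type) (_ : Field L) (_ : Algebra K L), IsGalois K L ∧
      Nonempty (H ≃* (L ≃ₐ[K] L))) : MalleOver K H := by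
  obtain ⟨U, hU, hc⟩ := hH
  have h1 : 1 ≤ U.index := Nat.one_le_iff_ne_zero.2 Subgroup.index_ne_zero_of_finite
  have h2 : 2 ≤ Nat.card H := by nlinarith
  intro n G hG
  refine ⟨indG_eq hG, beta_eq K h2 hG, ?_⟩
  obtain ⟨c, hc0, hlim⟩ := Pool.Agent.TH444.ML.asymp_iso Pool.Agent.TH444.ML.rest K H h2 U hU hc
    (gal_of_real K (AlgebraicClosure K) H h) G hG
  have hlim' : Tendsto (fun B : ℝ => (N_ K n G B : ℝ) / B) atTop (nhds c) := hlim
  refine ⟨c, hc0, ?_⟩
  rw [indG_eq hG, beta_eq K h2 hG]
  simpa using hlim'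

end Pool.Agent.Results.MP_b39724_nt.SparseFields

open Pool.Agent.Results.MP_b39724_nt.SparseFields in
/-- For every infinite set `A` of positive integers there is a totally real algebraic extension `F` of
`ℚ` with finite local degrees, with degrees in `A`, such that for every finite group `H` with
`SmallIndex H` there are number fields `K₀ ⊆ F` of arbitrarily large degrees in `A` such that the form
of Malle's conjecture of the problem holds for `C₂ ≀ H` over all number fields `K`, `K₀ ⊆ K ⊆ F`. -/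
theorem Pool.Agent.Results.MP_b39724_nt.SparseFields.result
    (A : Set ℕ) (hA : A.Infinite) (h0 : 0 ∉ A) :
    ∃ (F : Type) (_ : Field F) (_ : Algebra ℚ F), Algebra.IsAlgebraic ℚ F ∧
      DegreesIn A F ∧ RealFiniteLocal F ∧
      ∀ (H : Type) [Group H] [Finite H], SmallIndex H → ∀ m : ℕ,
        ∃ K₀ : IntermediateField ℚ F, FiniteDimensional ℚ K₀ ∧ Module.finrank ℚ K₀ ∈ A ∧
          m ≤ Module.finrank ℚ K₀ ∧
          ∀ (K : IntermediateField ℚ F) [NumberField K], K₀ ≤ K → MalleOver K H := by
  obtain ⟨F, i1, i2, h1, h2, h3, h4⟩ := Pool.Agent.R630.ML.main2 A hA h0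
  refine ⟨F, i1, i2, h1, h3, h2, fun H _ _ hH m => ?_⟩
  obtain ⟨K₀, h5, h6, h7, h8⟩ := h4 H m
  exact ⟨K₀, h5, h6, h7, fun K _ hK => malleOver K H hH (h8 K hK)⟩
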